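import Pool.Agent.U62.NG.Loc

/-!
# The fibre averages of random hyperelliptic fibrations with marked sections
-/

set_option autoImplicit false
set_option linter.unusedSectionVars false

namespace Pool.Agent.U62.NG

open Finset Polynomial Pool.Agent.N647.NG Pool.Agent.Y722.HS Pool.Agent.X280.BP Pool.Agent.X280.HG MeasureTheory ProbabilityTheory Filter

variable {m r D : ℕ}

/-- The fibre average: minus the sum of the character sums, divided by `p`. -/
noncomputable def UU (ξ : Fin r → ℤ) (p : ℕ) (c : (Fin m ⊕ Fin r) × Fin D → ZMod p) : ℝ :=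
  if h : p.Prime ∧ p ≠ 2 then
    haveI : Fact p.Prime := ⟨h.1⟩; -(∑ t : ZMod p, sv (fun i => ((ξ i : ℤ) : ZMod p)) (vt c t)) / p
  else 0

theorem UU_eq (ξ : Fin r → ℤ) (p : ℕ) [hp : Fact p.Prime] (h2 : p ≠ 2) (c : (Fin m ⊕ Fin r) × Fin D → ZMod p) :
    UU ξ p c = -(∑ t : ZMod p, sv (fun i => ((ξ i : ℤ) : ZMod p)) (vt c t)) / p := by
  unfold UU
  rw [dif_pos ⟨hp.out, h2⟩]

theorem sv_triv {K : Type} [Field K] [Fintype K] [DecidableEq K] (ξ : Fin r → K) (v : Fin m ⊕ Fin r → K) :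
    |sv ξ v| ≤ Fintype.card K := by
  unfold sv
  refine (Finset.abs_sum_le_sum_abs _ _).trans ?_
  calc ∑ x : K, |ch (Fv ξ v x)| ≤ ∑ _x : K, (1 : ℝ) := Finset.sum_le_sum fun x _ => ch_abs _
    _ = Fintype.card K := by simp

theorem UU_triv (ξ : Fin r → ℤ) (p : ℕ) (hp : p.Prime) (c : (Fin m ⊕ Fin r) × Fin D → ZMod p) : |UU ξ p c| ≤ p := by
  have : Fact p.Prime := ⟨hp⟩
  have hp0 : (0 : ℝ) < p := by exact_mod_cast hp.pos
  by_cases h2 : p = 2
  · unfold UU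
    rw [dif_neg (fun h => h.2 h2), abs_zero]
    exact hp0.le
  rw [UU_eq ξ p h2, abs_div, abs_neg, abs_of_pos hp0, div_le_iff₀ hp0]
  refine (Finset.abs_sum_le_sum_abs _ _).trans ?_
  calc ∑ t : ZMod p, |sv (fun i => ((ξ i : ℤ) : ZMod p)) (vt c t)| ≤ ∑ _t : ZMod p, (p : ℝ) :=
        Finset.sum_le_sum fun t _ => by
          have := sv_triv (fun i => ((ξ i : ℤ) : ZMod p)) (vt c t)
          rwa [ZMod.card] at this
    _ = p * p := by rw [Finset.sum_const, card_univ, ZMod.card, nsmul_eq_mul]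

/-- The bound for the bad primes. -/
def badBound (ξ : Fin r → ℤ) : ℕ := 2 + ∑ i, ∑ j, (ξ i - ξ j).natAbs

theorem inj_mod {ξ : Fin r → ℤ} (hξ : Function.Injective ξ) {p : ℕ} (hp : badBound ξ < p) :
    Function.Injective (fun i => ((ξ i : ℤ) : ZMod p)) := by
  intro i j h
  by_contra hij
  have h1 : ((ξ i - ξ j : ℤ) : ZMod p) = 0 := by
    push_cast
    exact sub_eq_zero.2 h
  rw [ZMod.intCast_zmod_eq_zero_iff_dvd] at h1
  have h2 : ξ i - ξ j ≠ 0 := sub_ne_zero.2 fun h => hij (hξ h)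
  have h3 : p ≤ (ξ i - ξ j).natAbs := Nat.le_of_dvd (Int.natAbs_pos.2 h2) (Int.natCast_dvd.1 h1)
  have h4 : (ξ i - ξ j).natAbs ≤ ∑ j, (ξ i - ξ j).natAbs :=
    Finset.single_le_sum (f := fun j => (ξ i - ξ j).natAbs) (fun _ _ => Nat.zero_le _) (mem_univ j)
  have h5 : ∑ j, (ξ i - ξ j).natAbs ≤ ∑ i, ∑ j, (ξ i - ξ j).natAbs :=
    Finset.single_le_sum (f := fun i => ∑ j, (ξ i - ξ j).natAbs) (fun _ _ => Nat.zero_le _) (mem_univ i)
  unfold badBound at hp
  omega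

theorem fourth_bound {p A E r g : ℝ} (hp1 : 1 ≤ p) (hr0 : 0 ≤ r) (hg0 : 0 ≤ g) (hA0 : 0 ≤ A)
    (hAp : A ≤ (r ^ 2 + r + 2) * p) (hEp : E ≤ (2 * g + r) ^ 4 * p ^ 2) :
    (-(1 / p)) ^ 4 * (p * E + 3 * (p * (p - 1)) * A ^ 2) ≤ (2 * g + r) ^ 4 + 3 * (r ^ 2 + r + 2) ^ 2 := by
  have hp0 : 0 < p := by linarith
  have e : (-(1 / p)) ^ 4 = 1 / p ^ 4 := by ring
  rw [e, one_div_mul_eq_div, div_le_iff₀ (by positivity)]
  have h1 : p * E ≤ (2 * g + r) ^ 4 * p ^ 4 := by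
    calc p * E ≤ p * ((2 * g + r) ^ 4 * p ^ 2) := mul_le_mul_of_nonneg_left hEp hp0.le
      _ = (2 * g + r) ^ 4 * (p ^ 3 * 1) := by ring
      _ ≤ (2 * g + r) ^ 4 * (p ^ 3 * p) :=
          mul_le_mul_of_nonneg_left (mul_le_mul_of_nonneg_left hp1 (by positivity)) (by positivity)
      _ = _ := by ring
  have h2 : A ^ 2 ≤ ((r ^ 2 + r + 2) * p) ^ 2 := pow_le_pow_left₀ hA0 hAp 2
  have h4 : 0 ≤ p * (p - 1) := mul_nonneg hp0.le (by linarith)
  have h5 : p * (p - 1) ≤ p * p := by nlinarith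
  have h3 : 3 * (p * (p - 1)) * A ^ 2 ≤ 3 * (r ^ 2 + r + 2) ^ 2 * p ^ 4 := by
    calc 3 * (p * (p - 1)) * A ^ 2 ≤ 3 * (p * (p - 1)) * ((r ^ 2 + r + 2) * p) ^ 2 :=
          mul_le_mul_of_nonneg_left h2 (by positivity)
      _ ≤ 3 * (p * p) * ((r ^ 2 + r + 2) * p) ^ 2 :=
          mul_le_mul_of_nonneg_right (by linarith) (by positivity)
      _ = _ := by ring
  rw [add_mul]
  linarith

theorem ld_UU {g : ℕ} (hD : 4 ≤ D) (hm : 2 ≤ m) (hg : m + r = 2 * g + 1) {ξ : Fin r → ℤ} (hξ : Function.Injective ξ) :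
    ∃ C : ℝ, LD (UU (m := m) (D := D) ξ) (-(r : ℝ)) ((-(r : ℝ)) ^ 2 + 1) C := by
  have hr0 : (0 : ℝ) ≤ r := Nat.cast_nonneg r
  have hg0 : (0 : ℝ) ≤ g := Nat.cast_nonneg g
  refine ld_of _ (-(r : ℝ)) (badBound ξ) r (r ^ 2 + r + 1) ((2 * g + r) ^ 4 + 3 * (r ^ 2 + r + 2) ^ 2) hr0
    (by positivity) (by positivity) ?_ ?_
  · intro p hp hpB c
    refine (UU_triv ξ p hp c).trans ?_
    exact_mod_cast hpB
  · intro p hp hpB hN
    have : Fact p.Prime := ⟨hp⟩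
    have hp1 : (1 : ℝ) ≤ p := by exact_mod_cast hp.one_lt.le
    have hp0 : (0 : ℝ) < p := by linarith
    have hp2 : ringChar (ZMod p) ≠ 2 := by
      rw [ZMod.ringChar_zmod_n]
      unfold badBound at hpB
      omega
    have hp22 : p ≠ 2 := by
      unfold badBound at hpB
      omega
    have hinj := inj_mod hξ hpB
    set η : Fin r → ZMod p := fun i => ((ξ i : ℤ) : ZMod p) with hη
    set a : ℝ := -(r * (1 - 1 / (p : ℝ))) with ha
    have hmean := sv_mean (m := m) hp2 hinj (by omega)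
    rw [ZMod.card] at hmean
    have hcardpos : (0 : ℝ) < Fintype.card (Fin m ⊕ Fin r → ZMod p) := by exact_mod_cast Fintype.card_pos
    obtain ⟨s, hs⟩ : ∃ s : (Fin m ⊕ Fin r → ZMod p) → ℝ, s = fun v => sv η v + a := ⟨_, rfl⟩
    have hs1 : (∑ v, s v) / (Fintype.card (Fin m ⊕ Fin r → ZMod p) : ℝ) = 0 := by
      rw [hs]
      rw [Finset.sum_add_distrib, add_div, hmean, Finset.sum_const, card_univ, nsmul_eq_mul, mul_div_cancel_left₀ _ hcardpos.ne', ha]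
      ring
    have hinv : 0 ≤ 1 / (p : ℝ) := by positivity
    have hinv1 : 1 / (p : ℝ) ≤ 1 := by rw [div_le_one hp0]; exact hp1
    have ha0 : 0 ≤ -a := by
      rw [ha, neg_neg]
      exact mul_nonneg hr0 (by linarith)
    have har : -a ≤ r := by
      rw [ha, neg_neg]
      nlinarith
    have hs2 : |(∑ v, s v ^ 2) / (Fintype.card (Fin m ⊕ Fin r → ZMod p) : ℝ) - p| ≤ r ^ 2 + r + 1 := by
      have h := sv_var (m := m) hp2 hinj hm (-a) ha0 har
      rw [ZMod.card] at h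
      rw [hs]
      simpa only [sub_neg_eq_add] using h
    obtain ⟨e1, e2, e4⟩ := EM_sum (D := D) p hD s hs1
    have hU : ∀ c : (Fin m ⊕ Fin r) × Fin D → ZMod p, UU ξ p c - a = -(1 / p) * ∑ t : ZMod p, s (vt c t) := by
      intro c
      rw [UU_eq ξ p hp22, hs]
      rw [Finset.sum_add_distrib, Finset.sum_const, card_univ, ZMod.card, nsmul_eq_mul]
      field_simp
      ring
    refine ⟨a, ?_, ?_, ?_, ?_, ?_⟩
    · have e : a - -(r : ℝ) = r / p := by rw [ha]; ring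
      rw [e, abs_of_nonneg (by positivity)]
    · have h1 : |a| = -a := abs_of_nonpos (by linarith)
      rw [h1, abs_neg, abs_of_nonneg hr0]
      exact har
    · simp only [hU]
      rw [EM_mul' p (-(1 / (p : ℝ))) (fun c => ∑ t : ZMod p, s (vt c t)), e1, mul_zero]
    · simp only [hU, mul_pow]
      rw [EM_mul' p ((-(1 / (p : ℝ))) ^ 2) (fun c => (∑ t : ZMod p, s (vt c t)) ^ 2), e2]
      obtain ⟨A, hA⟩ : ∃ A : ℝ, A = (∑ v, s v ^ 2) / (Fintype.card (Fin m ⊕ Fin r → ZMod p) : ℝ) := ⟨_, rfl⟩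
      rw [← hA] at hs2 ⊢
      have e : (-(1 / (p : ℝ))) ^ 2 * (p * A) - 1 = (A - p) / p := by field_simp
      rw [e, abs_div, abs_of_pos hp0]
      exact div_le_div_of_nonneg_right hs2 hp0.le
    · simp only [hU, mul_pow]
      rw [EM_mul' p ((-(1 / (p : ℝ))) ^ 4) (fun c => (∑ t : ZMod p, s (vt c t)) ^ 4), e4]
      obtain ⟨A, hA⟩ : ∃ A : ℝ, A = (∑ v, s v ^ 2) / (Fintype.card (Fin m ⊕ Fin r → ZMod p) : ℝ) := ⟨_, rfl⟩
      obtain ⟨E, hE⟩ : ∃ E : ℝ, E = (∑ v, s v ^ 4) / (Fintype.card (Fin m ⊕ Fin r → ZMod p) : ℝ) := ⟨_, rfl⟩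
      rw [← hA] at hs2 ⊢
      rw [← hE]
      have hA0 : 0 ≤ A := by rw [hA]; positivity
      have hAp : A ≤ (r ^ 2 + r + 2) * p := by
        have h1 := (abs_le.1 hs2).2
        nlinarith [sq_nonneg (r : ℝ)]
      have hsb : ∀ v, |s v| ≤ (2 * g + r) * √(p : ℝ) := by
        intro v
        have h1 := sv_le hp2 hg η v
        rw [ZMod.card] at h1
        have h2 : (1 : ℝ) ≤ √(p : ℝ) := Real.one_le_sqrt.2 hp1
        have h3 : |a| ≤ r * √(p : ℝ) := by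
          rw [← abs_neg, abs_of_nonneg ha0]
          nlinarith
        rw [hs]
        calc |sv η v + a| ≤ |sv η v| + |a| := abs_add_le _ _
          _ ≤ 2 * g * √(p : ℝ) + r * √(p : ℝ) := add_le_add h1 h3
          _ = _ := by ring
      have hEp : E ≤ (2 * g + r) ^ 4 * p ^ 2 := by
        rw [hE, div_le_iff₀ hcardpos]
        calc ∑ v, s v ^ 4 ≤ ∑ _v : Fin m ⊕ Fin r → ZMod p, (2 * (g : ℝ) + r) ^ 4 * p ^ 2 := by
              refine Finset.sum_le_sum fun v _ => ?_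
              have h1 := pow_le_pow_left₀ (abs_nonneg _) (hsb v) 4
              have h2 : |s v| ^ 4 = s v ^ 4 := by rw [← abs_pow, abs_of_nonneg (by positivity)]
              have h3 : (√(p : ℝ)) ^ 4 = (p : ℝ) ^ 2 := by
                have : (√(p : ℝ)) ^ 2 = p := Real.sq_sqrt hp0.le
                calc (√(p : ℝ)) ^ 4 = ((√(p : ℝ)) ^ 2) ^ 2 := by ring
                  _ = _ := by rw [this]
              rw [h2, mul_pow, h3] at h1
              exact h1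
          _ = _ := by rw [Finset.sum_const, card_univ, nsmul_eq_mul]; ring
      exact fourth_bound hp1 hr0 hg0 hA0 hAp hEp

end Pool.Agent.U62.NG
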