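import Pool.Agent.U62.NG.Fib

/-!
# The normal law for local data of variance one: sets of primes with weights, logarithmic weights
-/

set_option autoImplicit false
set_option linter.unusedSectionVars false

namespace Pool.Agent.U62.NG

open Finset Pool.Agent.Y722.HS Pool.Agent.X280.BP Pool.Agent.X280.HG MeasureTheory ProbabilityTheory Filter

variable {ι : Type} [Fintype ι] [DecidableEq ι]

theorem law_sets {U : ∀ p : ℕ, (ι → ZMod p) → ℝ} {μ C : ℝ} (h : LD U μ (μ ^ 2 + 1) C) (δ : ℝ) (hδ : 0 < δ)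
    (u ε : ℝ) (hε : 0 < ε) :
    ∃ K : ℕ, ∀ (P : Finset ℕ) (w : ℕ → ℝ) (y H : ℕ), (∀ p ∈ P, p.Prime ∧ p ≤ y) →
      (∀ p ∈ P, |w p| ≤ 1) → δ * P.card ≤ ∑ p ∈ P, w p ^ 2 → K ≤ P.card → y ^ K ≤ H →
      |({c : ι → ℤ | (∀ i, |c i| ≤ H) ∧
        ∑ p ∈ P, w p * U p (red p c) ≤ μ * ∑ p ∈ P, w p + u * √(∑ p ∈ P, w p ^ 2)}.ncard : ℝ) /
        (2 * H + 1 : ℝ) ^ Fintype.card ι - (gaussianReal 0 1).real (Set.Iic u)| ≤ ε := by
  classical
  have hv : 0 < (μ ^ 2 + 1) - μ ^ 2 := by linarith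
  obtain ⟨K, hK⟩ := abs_law h hv hδ u hε
  refine ⟨max K 1, fun P w y H hP hw hvar hcard hH => ?_⟩
  have hc1 : 1 ≤ P.card := (le_max_right _ _).trans hcard
  have hy1 : 1 ≤ y := by
    obtain ⟨p, hp⟩ : P.Nonempty := by rw [← Finset.card_pos]; omega
    have h1 := (hP p hp).2
    have h2 := (hP p hp).1.pos
    omega
  have hfin := hK P w y H hP hw hvar ((le_max_left _ _).trans hcard)
    ((Nat.pow_le_pow_right hy1 (le_max_left _ _)).trans hH)
  have e1 : (μ ^ 2 + 1) - μ ^ 2 = 1 := by ring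
  rw [e1, one_mul] at hfin
  have hW0 : 0 < ∑ p ∈ P, w p ^ 2 := by
    have : (1 : ℝ) ≤ P.card := by exact_mod_cast hc1
    have h2 : 0 < δ * P.card := by positivity
    linarith
  have hs0 : 0 < √(∑ p ∈ P, w p ^ 2) := Real.sqrt_pos.2 hW0
  rw [measureReal_def, law_apply H _ _ measurableSet_Iic,
    ENNReal.toReal_ofReal (by positivity)] at hfin
  rw [ncard_box]
  have e : ((Pool.Agent.Y722.HS.box ι H).filter (fun c =>
      ∑ p ∈ P, w p * U p (red p c) ≤ μ * ∑ p ∈ P, w p + u * √(∑ p ∈ P, w p ^ 2))) =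
      (Pool.Agent.Y722.HS.box ι H).filter (fun c =>
        (∑ p ∈ P, w p * (U p (red p c) - μ)) / √(∑ p ∈ P, w p ^ 2) ∈ Set.Iic u) := by
    apply Finset.filter_congr
    intro c _
    rw [Set.mem_Iic, div_le_iff₀ hs0]
    have e2 : ∑ p ∈ P, w p * (U p (red p c) - μ) = ∑ p ∈ P, w p * U p (red p c) - μ * ∑ p ∈ P, w p := by
      rw [Finset.mul_sum, ← Finset.sum_sub_distrib]
      exact Finset.sum_congr rfl fun p _ => by ring
    rw [e2]
    constructor <;> intro h <;> linarith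
  rw [e]
  exact hfin

theorem law_log {U : ∀ p : ℕ, (ι → ZMod p) → ℝ} {μ C : ℝ} (h : LD U μ (μ ^ 2 + 1) C) (u ε : ℝ) (hε : 0 < ε) :
    ∃ K : ℕ, ∀ T H : ℕ, K ≤ T → T ^ K ≤ H →
      |({c : ι → ℤ | (∀ i, |c i| ≤ H) ∧
        ∑ p ∈ primesUpTo T, Real.log p * U p (red p c) ≤
          μ * ∑ p ∈ primesUpTo T, Real.log p + u * √(∑ p ∈ primesUpTo T, Real.log p ^ 2)}.ncard : ℝ) /
        (2 * H + 1 : ℝ) ^ Fintype.card ι - (gaussianReal 0 1).real (Set.Iic u)| ≤ ε := by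
  obtain ⟨K1, hK1⟩ := law_sets h (1 / 8) (by norm_num) u ε hε
  obtain ⟨K2, hK2⟩ := eventually_atTop.1 (many_primes.and log_weights)
  refine ⟨max (max K1 K2) (K1 ^ 2 + 3), fun T H hT hH => ?_⟩
  have hT1 : K2 ≤ T := (le_max_right _ _).trans ((le_max_left _ _).trans hT)
  have hT2 : K1 ^ 2 + 3 ≤ T := (le_max_right _ _).trans hT
  have hT0 : (0 : ℝ) < T := by exact_mod_cast (by omega : 0 < T)
  obtain ⟨h1, h2⟩ := hK2 T hT1
  have hlog : 0 < Real.log T := Real.log_pos (by exact_mod_cast (by omega : 1 < T))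
  have hcard : K1 ≤ (primesUpTo T).card := by
    have h3 : (K1 : ℝ) ≤ √(T : ℝ) := by
      apply Real.le_sqrt_of_sq_le
      exact_mod_cast (by omega : K1 ^ 2 ≤ T)
    have h4 : 0 ≤ √(T : ℝ) := Real.sqrt_nonneg _
    have h5 : (K1 : ℝ) ≤ ((primesUpTo T).card : ℝ) := by linarith
    exact_mod_cast h5
  have hfin := hK1 (primesUpTo T) (fun p => Real.log p / Real.log T) T H
    (fun p hp => ((mem_primesUpTo.1 hp).symm)) (fun p hp => by
      have h3 := mem_primesUpTo.1 hp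
      have hp1 : (1 : ℝ) ≤ p := by exact_mod_cast h3.2.one_lt.le
      rw [abs_of_nonneg (div_nonneg (Real.log_nonneg hp1) hlog.le), div_le_one hlog]
      exact Real.log_le_log (by linarith) (by exact_mod_cast h3.1)) h2 hcard
    ((Nat.pow_le_pow_right (by omega) ((le_max_left _ _).trans (le_max_left _ _))).trans hH)
  refine le_trans (le_of_eq ?_) hfin
  congr 3
  congr 2
  ext c
  simp only [Set.mem_ofPred_eq]
  refine and_congr_right fun _ => ?_
  have e3 : √(∑ p ∈ primesUpTo T, (Real.log p / Real.log T) ^ 2) =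
      √(∑ p ∈ primesUpTo T, Real.log p ^ 2) / Real.log T := by
    have e4 : ∑ p ∈ primesUpTo T, (Real.log p / Real.log T) ^ 2 =
        (∑ p ∈ primesUpTo T, Real.log p ^ 2) / Real.log T ^ 2 := by
      simp only [div_pow]
      rw [← Finset.sum_div]
    rw [e4, Real.sqrt_div' _ (sq_nonneg _), Real.sqrt_sq hlog.le]
  have e5 : ∑ p ∈ primesUpTo T, Real.log p / Real.log T * U p (red p c) =
      (∑ p ∈ primesUpTo T, Real.log p * U p (red p c)) / Real.log T := by
    rw [Finset.sum_div]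
    exact Finset.sum_congr rfl fun p _ => by ring
  have e6 : ∑ p ∈ primesUpTo T, Real.log p / Real.log T = (∑ p ∈ primesUpTo T, Real.log p) / Real.log T := by
    rw [Finset.sum_div]
  rw [e3, e5, e6]
  have e7 : μ * ((∑ p ∈ primesUpTo T, Real.log p) / Real.log T) +
      u * (√(∑ p ∈ primesUpTo T, Real.log p ^ 2) / Real.log T) =
      (μ * (∑ p ∈ primesUpTo T, Real.log p) + u * √(∑ p ∈ primesUpTo T, Real.log p ^ 2)) / Real.log T := by ring
  rw [e7, div_le_div_iff_of_pos_right hlog]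

end Pool.Agent.U62.NG
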