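import Pool.Agent.Y57.FD.Mom

/-!
# Moments of sums over the fibres of a random polynomial family

`moment_eq`: for a random family of polynomials of degree less than `D` (one polynomial for every index `k`), the moments
up to the order `D` of the sum `∑ s(v(t))` over the elements `t` of a finite field, `v(t)` the vector of the values at `t`, are those
of the sum of `q` independent values of `s`.
-/

set_option autoImplicit false

namespace Pool.Agent.U62.NG

open Finset Pool.Agent.Y57.FD.Mom

section Ind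

variable {V : Type} [Fintype V]

/-- Moments of the sum of `N` independent values of `s`. -/
noncomputable def MM (s : V → ℝ) (m N : ℕ) : ℝ :=
  (∑ w : Fin N → V, (∑ i, s (w i)) ^ m) / (Fintype.card V : ℝ) ^ N

/-- The moments of `s`. -/
noncomputable def ee (s : V → ℝ) (j : ℕ) : ℝ := (∑ v, s v ^ j) / (Fintype.card V : ℝ)

variable (s : V → ℝ)

theorem MM_zero [Nonempty V] (N : ℕ) : MM s 0 N = 1 := by
  unfold MM
  have hq : (0 : ℝ) < Fintype.card V := by exact_mod_cast Fintype.card_pos
  simp only [pow_zero, sum_const, card_univ, nsmul_eq_mul, mul_one, Fintype.card_pi_const]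
  push_cast
  exact div_self (by positivity)

theorem ee_zero [Nonempty V] : ee s 0 = 1 := by
  unfold ee
  have hq : (0 : ℝ) < Fintype.card V := by exact_mod_cast Fintype.card_pos
  simp only [pow_zero, sum_const, card_univ, nsmul_eq_mul, mul_one]
  exact div_self (by positivity)

theorem MM_N_zero (m : ℕ) (hm : 1 ≤ m) : MM s m 0 = 0 := by
  unfold MM
  simp [show m ≠ 0 by omega]

theorem MM_succ [Nonempty V] (m N : ℕ) :
    MM s m (N + 1) = ∑ j ∈ range (m + 1), (m.choose j : ℝ) * ee s j * MM s (m - j) N := by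
  have hq : (0 : ℝ) < Fintype.card V := by exact_mod_cast Fintype.card_pos
  unfold MM ee
  have h1 : (∑ w : Fin (N + 1) → V, (∑ i, s (w i)) ^ m) =
      ∑ c : V, ∑ w : Fin N → V, (s c + ∑ i, s (w i)) ^ m := by
    rw [← Fintype.sum_prod_type' (f := fun (c : V) (w : Fin N → V) => (s c + ∑ i, s (w i)) ^ m)]
    refine (Fintype.sum_equiv (Fin.consEquiv (fun _ : Fin (N + 1) => V)) _ _ ?_).symm
    intro x
    rw [Fin.sum_univ_succ]
    simp [Fin.consEquiv]
  rw [h1]
  have h2 : ∀ (c : V) (w : Fin N → V), (s c + ∑ i, s (w i)) ^ m =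
      ∑ j ∈ range (m + 1), s c ^ j * (∑ i, s (w i)) ^ (m - j) * (m.choose j : ℝ) := by
    intro c w
    rw [add_pow]
  simp only [h2]
  have h3 : ∑ c : V, ∑ w : Fin N → V, ∑ j ∈ range (m + 1),
      s c ^ j * (∑ i, s (w i)) ^ (m - j) * (m.choose j : ℝ) =
      ∑ j ∈ range (m + 1), (m.choose j : ℝ) * (∑ c : V, s c ^ j) *
        (∑ w : Fin N → V, (∑ i, s (w i)) ^ (m - j)) := by
    rw [sum_congr rfl (fun c _ => sum_comm), sum_comm]
    apply sum_congr rfl
    intro j _
    rw [mul_assoc, sum_mul_sum, mul_sum]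
    apply sum_congr rfl
    intro c _
    rw [mul_sum]
    apply sum_congr rfl
    intro w _
    ring
  rw [h3, sum_div]
  apply sum_congr rfl
  intro j _
  rw [pow_succ]
  field_simp

theorem MM_one [Nonempty V] (h1 : ee s 1 = 0) (N : ℕ) : MM s 1 N = 0 := by
  induction N with
  | zero => exact MM_N_zero s 1 le_rfl
  | succ N ih =>
    rw [MM_succ]
    simp [Finset.sum_range_succ, h1, ih, ee_zero]

theorem MM_two [Nonempty V] (h1 : ee s 1 = 0) (N : ℕ) : MM s 2 N = N * ee s 2 := by
  induction N with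
  | zero => rw [MM_N_zero s 2 (by norm_num)]; simp
  | succ N ih =>
    rw [MM_succ]
    simp [Finset.sum_range_succ, h1, ih, ee_zero, MM_zero]
    ring

theorem MM_four [Nonempty V] (h1 : ee s 1 = 0) (N : ℕ) :
    MM s 4 N = N * ee s 4 + 3 * (N * (N - 1)) * ee s 2 ^ 2 := by
  induction N with
  | zero => rw [MM_N_zero s 4 (by norm_num)]; simp
  | succ N ih =>
    rw [MM_succ]
    have c2 : Nat.choose 4 2 = 6 := by decide
    simp [Finset.sum_range_succ, h1, ih, ee_zero, MM_zero, MM_one s h1, MM_two s h1, c2]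
    ring

end Ind

section Interp

variable {K : Type} [Field K] [Fintype K] [DecidableEq K] {κ : Type} [Fintype κ] [DecidableEq κ]

/-- The values at `t` of the polynomials with the coefficients `c`. -/
def vt {D : ℕ} (c : κ × Fin D → K) (t : K) : κ → K := fun k => ∑ j, c (k, j) * t ^ (j : ℕ)

/-- The values at the points of `S`. -/
def evt (D : ℕ) (S : Finset K) : (κ × Fin D → K) →+ (S → (κ → K)) where
  toFun c := fun t => vt c (t : K)
  map_zero' := by
    funext t k
    simp [vt]
  map_add' u v := by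
    funext t k
    simp [vt, add_mul, sum_add_distrib]

theorem evt_surj (D : ℕ) (S : Finset K) (hS : S.card ≤ D) : Function.Surjective (evt (κ := κ) D S) := by
  intro v
  have h : ∀ k : κ, ∃ u : Fin D → K, ev K D S u = fun t => v t k := fun k => ev_surj K D S hS _
  choose u hu using h
  refine ⟨fun x => u x.1 x.2, ?_⟩
  funext t k
  exact congrFun (hu k) t

/-- Restriction of functions. -/
def rest (S : Finset K) : (K → (κ → K)) →+ (S → (κ → K)) where
  toFun h := fun t => h t
  map_zero' := rfl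
  map_add' _ _ := rfl

theorem rest_surj (S : Finset K) : Function.Surjective (rest (κ := κ) S) := by
  intro v
  refine ⟨fun x => if h : x ∈ S then v ⟨x, h⟩ else 0, ?_⟩
  funext x
  show (if h : (x : K) ∈ S then v ⟨x, h⟩ else 0) = v x
  rw [dif_pos x.2]

theorem prod_meanV (s : (κ → K) → ℝ) (m D : ℕ) (hm : m ≤ D) (x : Fin m → K) :
    (∑ c : κ × Fin D → K, ∏ i, s (vt c (x i))) / (Fintype.card (κ × Fin D → K) : ℝ) =
    (∑ h : K → (κ → K), ∏ i, s (h (x i))) / (Fintype.card (K → (κ → K)) : ℝ) := by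
  obtain ⟨S, hs⟩ : ∃ S : Finset K, S = univ.image x := ⟨_, rfl⟩
  have hsx : ∀ i, x i ∈ S := fun i => by rw [hs]; exact mem_image_of_mem x (mem_univ i)
  have hsc : S.card ≤ D := by
    rw [hs]
    refine card_image_le.trans ?_
    rw [card_univ, Fintype.card_fin]
    exact hm
  have h1 := mean_hom (evt (κ := κ) D S) (evt_surj D S hsc) (fun v => ∏ i, s (v ⟨x i, hsx i⟩))
  have h2 := mean_hom (rest (κ := κ) S) (rest_surj S) (fun v => ∏ i, s (v ⟨x i, hsx i⟩))
  rw [← h2] at h1
  exact h1

theorem moment_eqV (s : (κ → K) → ℝ) (m D : ℕ) (hm : m ≤ D) :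
    (∑ c : κ × Fin D → K, (∑ t : K, s (vt c t)) ^ m) / (Fintype.card (κ × Fin D → K) : ℝ) =
    MM s m (Fintype.card K) := by
  have h1 : ∀ c : κ × Fin D → K, (∑ t : K, s (vt c t)) ^ m =
      ∑ x : Fin m → K, ∏ i, s (vt c (x i)) := fun u => Fintype.sum_pow _ m
  have h2 : ∀ h : K → (κ → K), (∑ t : K, s (h t)) ^ m =
      ∑ x : Fin m → K, ∏ i, s (h (x i)) := fun u => Fintype.sum_pow _ m
  have h3 : MM s m (Fintype.card K) = (∑ h : K → (κ → K), (∑ t : K, s (h t)) ^ m) /
      (Fintype.card (K → (κ → K)) : ℝ) := by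
    unfold MM
    rw [Fintype.card_fun (α := K) (β := κ → K)]
    push_cast
    congr 1
    refine Fintype.sum_equiv (Equiv.arrowCongr (Fintype.equivFin K).symm (Equiv.refl (κ → K))) _ _ ?_
    intro w
    congr 1
    refine Fintype.sum_equiv (Fintype.equivFin K).symm _ _ ?_
    intro i
    simp [Equiv.arrowCongr]
  rw [h3, sum_congr rfl (fun u _ => h1 u), sum_congr rfl (fun h _ => h2 h), sum_comm,
    sum_comm (s := (univ : Finset (K → (κ → K)))), sum_div, sum_div]
  exact sum_congr rfl fun x _ => prod_meanV s m D hm x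

end Interp

end Pool.Agent.U62.NG
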