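import Pool.Agent.U62.NG.Nag

/-!
# Local data of the fibre averages
-/

set_option autoImplicit false
set_option linter.unusedSectionVars false

namespace Pool.Agent.U62.NG

open Finset Polynomial Pool.Agent.N647.NG Pool.Agent.Y722.HS Pool.Agent.X280.BP Pool.Agent.X280.HG MeasureTheory ProbabilityTheory Filter

section Gen

variable {κ : Type} [Fintype κ] [DecidableEq κ] {D : ℕ}

/-- Moments of a normalised sum over the elements of `ZMod p` of a function of the values. -/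
theorem EM_sum (p : ℕ) [Fact p.Prime] (hD : 4 ≤ D) (s : (κ → ZMod p) → ℝ)
    (h1 : (∑ v, s v) / (Fintype.card (κ → ZMod p) : ℝ) = 0) :
    EM (ι := κ × Fin D) p (fun c => ∑ t : ZMod p, s (vt c t)) = 0 ∧
    EM (ι := κ × Fin D) p (fun c => (∑ t : ZMod p, s (vt c t)) ^ 2) =
      p * ((∑ v, s v ^ 2) / (Fintype.card (κ → ZMod p) : ℝ)) ∧
    EM (ι := κ × Fin D) p (fun c => (∑ t : ZMod p, s (vt c t)) ^ 4) =
      p * ((∑ v, s v ^ 4) / (Fintype.card (κ → ZMod p) : ℝ)) +
        3 * (p * (p - 1)) * ((∑ v, s v ^ 2) / (Fintype.card (κ → ZMod p) : ℝ)) ^ 2 := by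
  have hc : (Fintype.card (κ × Fin D → ZMod p) : ℝ) = (p : ℝ) ^ Fintype.card (κ × Fin D) := by
    rw [Fintype.card_fun, ZMod.card]
    push_cast
    rfl
  have he1 : ee s 1 = 0 := by
    unfold ee
    simpa only [pow_one] using h1
  have m1 := moment_eqV s 1 D (by omega)
  have m2 := moment_eqV s 2 D (by omega)
  have m4 := moment_eqV s 4 D (by omega)
  rw [hc, MM_one s he1] at m1
  rw [hc, MM_two s he1] at m2
  rw [hc, MM_four s he1] at m4
  simp only [pow_one] at m1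
  rw [ZMod.card] at m2 m4
  unfold EM
  exact ⟨m1, m2, m4⟩

theorem EM_add' (p : ℕ) [NeZero p] {ι : Type} [Fintype ι] [DecidableEq ι] (f g : (ι → ZMod p) → ℝ) :
    EM p (fun c => f c + g c) = EM p f + EM p g := by
  unfold EM
  rw [Finset.sum_add_distrib, add_div]

theorem EM_mul' (p : ℕ) [NeZero p] {ι : Type} [Fintype ι] [DecidableEq ι] (a : ℝ) (f : (ι → ZMod p) → ℝ) :
    EM p (fun c => a * f c) = a * EM p f := by
  unfold EM
  rw [← Finset.mul_sum, mul_div_assoc]

theorem EM_mono' (p : ℕ) [NeZero p] {ι : Type} [Fintype ι] [DecidableEq ι] (f g : (ι → ZMod p) → ℝ) (h : ∀ c, f c ≤ g c) :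
    EM p f ≤ EM p g := by
  unfold EM
  exact div_le_div_of_nonneg_right (Finset.sum_le_sum fun c _ => h c) (by positivity)

theorem EM_const'' (p : ℕ) [NeZero p] {ι : Type} [Fintype ι] [DecidableEq ι] (a : ℝ) :
    EM (ι := ι) p (fun _ => a) = a := by
  have hp : (0 : ℝ) < p := by exact_mod_cast Nat.pos_of_ne_zero (NeZero.ne p)
  unfold EM
  rw [Finset.sum_const, card_univ, Fintype.card_fun, ZMod.card, nsmul_eq_mul]
  push_cast
  field_simp

theorem EM_abs (p : ℕ) [NeZero p] {ι : Type} [Fintype ι] [DecidableEq ι] (f : (ι → ZMod p) → ℝ) (B : ℝ) (h : ∀ c, |f c| ≤ B) :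
    |EM p f| ≤ B := by
  rw [abs_le]
  constructor
  · have := EM_mono' p (fun _ => -B) f fun c => (abs_le.1 (h c)).1
    rwa [EM_const''] at this
  · have := EM_mono' p f (fun _ => B) fun c => (abs_le.1 (h c)).2
    rwa [EM_const''] at this

end Gen

/-- Normalised sums: from centred local means to local data. `U` is a normalised sum with mean `-a`. -/
theorem ld_of {ι : Type} [Fintype ι] [DecidableEq ι] (U : ∀ p : ℕ, (ι → ZMod p) → ℝ) (μ : ℝ) (B0 : ℕ) (C1 C2 C4 : ℝ)
    (hC1 : 0 ≤ C1) (hC2 : 0 ≤ C2) (hC4 : 0 ≤ C4)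
    (hbad : ∀ p : ℕ, p.Prime → p ≤ B0 → ∀ c, |U p c| ≤ B0)
    (hgood : ∀ p : ℕ, p.Prime → B0 < p → ∀ [NeZero p], ∃ a : ℝ, |a - μ| ≤ C1 / p ∧ |a| ≤ |μ| ∧ EM p (fun c => U p c - a) = 0 ∧
      |EM p (fun c => (U p c - a) ^ 2) - 1| ≤ C2 / p ∧ EM p (fun c => (U p c - a) ^ 4) ≤ C4) :
    ∃ C : ℝ, LD U μ (μ ^ 2 + 1) C := by
  obtain ⟨B, hB⟩ : ∃ B : ℝ, B = (B0 : ℝ) := ⟨_, rfl⟩
  have hB0 : 0 ≤ B := hB ▸ Nat.cast_nonneg B0
  have hBp : ∀ p : ℕ, p ≤ B0 → (p : ℝ) ≤ B := fun p hp => by rw [hB]; exact_mod_cast hp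
  simp only [← hB] at hbad
  refine ⟨C1 + (B + |μ|) * B + (C2 + 2 * |μ| * C1) + (B ^ 2 + μ ^ 2 + 1) * B + (8 * (C4 + μ ^ 4)) + B ^ 4, ?_⟩
  have hμ2 : 0 ≤ μ ^ 2 := sq_nonneg _
  have hμ4 : 0 ≤ μ ^ 4 := by positivity
  have t1 : 0 ≤ (B + |μ|) * B := by positivity
  have t2 : 0 ≤ C2 + 2 * |μ| * C1 := by positivity
  have t3 : 0 ≤ (B ^ 2 + μ ^ 2 + 1) * B := by positivity
  have t4 : 0 ≤ 8 * (C4 + μ ^ 4) := by positivity
  have t5 : 0 ≤ B ^ 4 := by positivity
  refine ⟨by positivity, ?_, ?_, ?_⟩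
  · intro p hp _
    have hp0 : (0 : ℝ) < p := by exact_mod_cast hp.pos
    rcases le_or_gt p B0 with h | h
    · have h1 : |EM p (U p) - μ| ≤ B + |μ| := by
        refine (abs_sub _ _).trans ?_
        have := EM_abs p (U p) B (hbad p hp h)
        linarith
      refine h1.trans ?_
      have h2 : (p : ℝ) ≤ B := hBp p h
      rw [le_div_iff₀ hp0]
      have h3 : (B + |μ|) * p ≤ (B + |μ|) * B := mul_le_mul_of_nonneg_left h2 (by positivity)
      linarith
    · obtain ⟨a, ha, -, h1, -, -⟩ := hgood p hp h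
      have h2 : EM p (U p) = a := by
        have e : (fun c => U p c) = fun c => (U p c - a) + a := by funext c; ring
        have h3 := EM_add' p (fun c => U p c - a) (fun _ => a)
        rw [← e, h1, EM_const'', zero_add] at h3
        exact h3
      rw [h2]
      refine ha.trans ?_
      exact div_le_div_of_nonneg_right (by linarith) hp0.le
  · intro p hp _
    have hp0 : (0 : ℝ) < p := by exact_mod_cast hp.pos
    rcases le_or_gt p B0 with h | h
    · have h1 : |EM p (fun c => U p c ^ 2) - (μ ^ 2 + 1)| ≤ B ^ 2 + μ ^ 2 + 1 := by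
        refine (abs_sub _ _).trans ?_
        have h3 := EM_abs p (fun c => U p c ^ 2) (B ^ 2) (fun c => by
          rw [abs_pow]
          exact pow_le_pow_left₀ (abs_nonneg _) (hbad p hp h c) 2)
        have h4 : |μ ^ 2 + 1| = μ ^ 2 + 1 := abs_of_nonneg (by linarith)
        rw [h4]
        linarith
      refine h1.trans ?_
      have h2 : (p : ℝ) ≤ B := hBp p h
      rw [le_div_iff₀ hp0]
      have h3 : (B ^ 2 + μ ^ 2 + 1) * p ≤ (B ^ 2 + μ ^ 2 + 1) * B := mul_le_mul_of_nonneg_left h2 (by positivity)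
      linarith
    · obtain ⟨a, ha, haμ, h1, h2, -⟩ := hgood p hp h
      have h3 : EM p (fun c => U p c ^ 2) = EM p (fun c => (U p c - a) ^ 2) + a ^ 2 := by
        have e : (fun c => U p c ^ 2) = fun c => (U p c - a) ^ 2 + (2 * a * (U p c - a) + a ^ 2) := by funext c; ring
        rw [e, EM_add' p (fun c => (U p c - a) ^ 2) (fun c => 2 * a * (U p c - a) + a ^ 2),
          EM_add' p (fun c => 2 * a * (U p c - a)) (fun _ => a ^ 2), EM_mul' p (2 * a) (fun c => U p c - a), h1,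
          EM_const'']
        ring
      rw [h3]
      have h4 : |a ^ 2 - μ ^ 2| ≤ 2 * |μ| * C1 / p := by
        have e : a ^ 2 - μ ^ 2 = (a + μ) * (a - μ) := by ring
        rw [e, abs_mul]
        have h5 : |a + μ| ≤ 2 * |μ| := (abs_add_le _ _).trans (by linarith)
        calc |a + μ| * |a - μ| ≤ 2 * |μ| * (C1 / p) := mul_le_mul h5 ha (abs_nonneg _) (by positivity)
          _ = _ := by ring
      have h5 : |EM p (fun c => (U p c - a) ^ 2) + a ^ 2 - (μ ^ 2 + 1)| ≤ C2 / p + 2 * |μ| * C1 / p := by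
        have e : EM p (fun c => (U p c - a) ^ 2) + a ^ 2 - (μ ^ 2 + 1) =
            (EM p (fun c => (U p c - a) ^ 2) - 1) + (a ^ 2 - μ ^ 2) := by ring
        rw [e]
        exact (abs_add_le _ _).trans (add_le_add h2 h4)
      refine h5.trans ?_
      rw [← add_div]
      exact div_le_div_of_nonneg_right (by linarith) hp0.le
  · intro p hp _
    have hp0 : (0 : ℝ) < p := by exact_mod_cast hp.pos
    rcases le_or_gt p B0 with h | h
    · have h3 := EM_abs p (fun c => U p c ^ 4) (B ^ 4) (fun c => by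
          rw [abs_pow]
          exact pow_le_pow_left₀ (abs_nonneg _) (hbad p hp h c) 4)
      have h4 := (abs_le.1 h3).2
      linarith
    · obtain ⟨a, ha, haμ, h1, h2, h4⟩ := hgood p hp h
      have h5 : EM p (fun c => U p c ^ 4) ≤ EM p (fun c => 8 * (U p c - a) ^ 4 + 8 * a ^ 4) := by
        refine EM_mono' p _ _ fun c => ?_
        have e : U p c = (U p c - a) + a := by ring
        have h6 : ∀ x y : ℝ, (x + y) ^ 4 ≤ 8 * x ^ 4 + 8 * y ^ 4 := by
          intro x y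
          have h7 : (x + y) ^ 2 ≤ 2 * (x ^ 2 + y ^ 2) := by nlinarith [sq_nonneg (x - y)]
          have h8 : ((x + y) ^ 2) ^ 2 ≤ (2 * (x ^ 2 + y ^ 2)) ^ 2 := pow_le_pow_left₀ (sq_nonneg _) h7 2
          nlinarith [sq_nonneg (x ^ 2 - y ^ 2)]
        conv_lhs => rw [e]
        exact h6 _ _
      rw [EM_add' p (fun c => 8 * (U p c - a) ^ 4) (fun _ => 8 * a ^ 4), EM_mul' p 8 (fun c => (U p c - a) ^ 4),
        EM_const''] at h5
      have h6 : a ^ 4 ≤ μ ^ 4 := by
        have := pow_le_pow_left₀ (abs_nonneg a) haμ 4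
        have e1 : |a| ^ 4 = a ^ 4 := by rw [← abs_pow, abs_of_nonneg (by positivity)]
        have e2 : |μ| ^ 4 = μ ^ 4 := by rw [← abs_pow, abs_of_nonneg (by positivity)]
        rwa [e1, e2] at this
      linarith

end Pool.Agent.U62.NG
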