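import Pool.Agent.U62.NG.Sys
import Pool.Agent.X280.HG.LogW

/-!
# Fibre averages of random hyperelliptic fibrations with marked sections: local data, the normal law
-/

set_option autoImplicit false
set_option linter.unusedSectionVars false

namespace Pool.Agent.U62.NG

open Finset Polynomial Pool.Agent.N647.NG Pool.Agent.Y722.HS Pool.Agent.X280.BP Pool.Agent.X280.HG MeasureTheory ProbabilityTheory Filter

section Weil

variable {K : Type} [Field K] [Fintype K] [DecidableEq K] {m r : ℕ}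

/-- The polynomial. -/
noncomputable def Fp (ξ : Fin r → K) (v : Fin m ⊕ Fin r → K) : K[X] :=
  (∏ i, (X - C (ξ i))) * (X ^ m + ∑ k : Fin m, C (v (Sum.inl k)) * X ^ (k : ℕ)) +
    ∑ i, C (Lx ξ i (ξ i) * v (Sum.inr i) ^ 2) * ∏ j ∈ univ.erase i, (X - C (ξ j))

theorem Fp_eval (ξ : Fin r → K) (v : Fin m ⊕ Fin r → K) (x : K) : (Fp ξ v).eval x = Fv ξ v x := by
  unfold Fp Fv Px
  simp only [eval_add, eval_mul, eval_prod, eval_sub, eval_X, eval_C, eval_pow, eval_finsetSum]
  congr 1
  refine Finset.sum_congr rfl fun i _ => ?_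
  rw [← Lx]
  ring

theorem deg_low (v : Fin m → K) : (∑ k : Fin m, C (v k) * X ^ (k : ℕ) : K[X]).degree < m :=
  Polynomial.degree_sum_fin_lt v

theorem Fp_monic (ξ : Fin r → K) (v : Fin m ⊕ Fin r → K) : (Fp ξ v).Monic ∧ (Fp ξ v).natDegree = m + r := by
  have h1 : (X ^ m + ∑ k : Fin m, C (v (Sum.inl k)) * X ^ (k : ℕ) : K[X]).Monic :=
    monic_X_pow_add (deg_low _)
  have h1d : (X ^ m + ∑ k : Fin m, C (v (Sum.inl k)) * X ^ (k : ℕ) : K[X]).natDegree = m := by
    rw [Polynomial.natDegree_add_eq_left_of_degree_lt]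
    · exact natDegree_X_pow m
    · rw [degree_X_pow]
      exact deg_low _
  have h2 : (∏ i : Fin r, (X - C (ξ i)) : K[X]).Monic := monic_prod_of_monic _ _ fun i _ => monic_X_sub_C _
  have h2d : (∏ i : Fin r, (X - C (ξ i)) : K[X]).natDegree = r := by
    rw [natDegree_prod_of_monic _ _ fun i _ => monic_X_sub_C _]
    simp
  have h3 := h2.mul h1
  have h3d : ((∏ i : Fin r, (X - C (ξ i))) * (X ^ m + ∑ k : Fin m, C (v (Sum.inl k)) * X ^ (k : ℕ)) : K[X]).natDegree =
      m + r := by
    rw [h2.natDegree_mul h1, h1d, h2d, add_comm]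
  have h4 : (∑ i : Fin r, C (Lx ξ i (ξ i) * v (Sum.inr i) ^ 2) * ∏ j ∈ univ.erase i, (X - C (ξ j)) : K[X]).degree <
      ((∏ i, (X - C (ξ i))) * (X ^ m + ∑ k : Fin m, C (v (Sum.inl k)) * X ^ (k : ℕ)) : K[X]).degree := by
    rw [degree_eq_natDegree h3.ne_zero, h3d]
    rcases Nat.eq_zero_or_pos r with hr | hr
    · subst hr
      rw [Finset.univ_eq_empty, Finset.sum_empty, degree_zero]
      exact WithBot.bot_lt_coe _
    · refine lt_of_le_of_lt (Polynomial.degree_sum_le _ _) ?_
      rw [Finset.sup_lt_iff (WithBot.bot_lt_coe _)]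
      intro i _
      rw [← smul_eq_C_mul]
      refine lt_of_le_of_lt (degree_smul_le _ _) ?_
      rw [degree_prod]
      simp only [degree_X_sub_C, Finset.sum_const, nsmul_eq_mul, mul_one, Finset.card_erase_of_mem (mem_univ i),
        card_univ, Fintype.card_fin]
      have : r - 1 < m + r := by omega
      exact_mod_cast this
  refine ⟨?_, ?_⟩
  · unfold Fp
    exact h3.add_of_left h4
  · unfold Fp
    rw [natDegree_add_eq_left_of_degree_lt h4, h3d]

theorem sv_le (h2 : ringChar K ≠ 2) {g : ℕ} (hg : m + r = 2 * g + 1) (ξ : Fin r → K) (v : Fin m ⊕ Fin r → K) :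
    |sv ξ v| ≤ 2 * g * √(Fintype.card K) := by
  have h := weil_odd h2 (Fp_monic ξ v).1 ((Fp_monic ξ v).2.trans hg)
  unfold sv
  simpa only [Fp_eval] using h

end Weil

section Mom

variable {K : Type} [Field K] [Fintype K] [DecidableEq K] {m r : ℕ}

theorem sum_split (F : (Fin m ⊕ Fin r → K) → ℝ) :
    ∑ v, F v = ∑ η : Fin r → K, ∑ u : Fin m → K, F (Sum.elim u η) := by
  rw [Finset.sum_comm, ← Fintype.sum_prod_type' (f := fun (u : Fin m → K) (η : Fin r → K) => F (Sum.elim u η))]
  exact Fintype.sum_equiv (Equiv.sumArrowEquivProdArrow (Fin m) (Fin r) K) _ _ fun v => by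
    congr 1
    funext k
    rcases k with k | k <;> rfl

theorem card_split : (Fintype.card (Fin m ⊕ Fin r → K) : ℝ) = (Fintype.card K : ℝ) ^ m * (Fintype.card K : ℝ) ^ r := by
  rw [Fintype.card_fun, Fintype.card_sum, Fintype.card_fin, Fintype.card_fin, pow_add]
  push_cast
  rfl

/-- The mean of the character sum. -/
theorem sv_mean (h2 : ringChar K ≠ 2) {ξ : Fin r → K} (hξ : Function.Injective ξ) (hm : 1 ≤ m) :
    (∑ v : Fin m ⊕ Fin r → K, sv ξ v) / (Fintype.card (Fin m ⊕ Fin r → K) : ℝ) = r * (1 - 1 / Fintype.card K) := by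
  have hq : (0 : ℝ) < Fintype.card K := by exact_mod_cast Fintype.card_pos
  rw [sum_split, Finset.sum_congr rfl fun η _ => inner_one h2 hξ hm η, ← Finset.mul_sum, card_split,
    mul_div_mul_left _ _ (by positivity), sum_WW]

/-- The second moment of the centred character sum. -/
theorem sv_var (h2 : ringChar K ≠ 2) {ξ : Fin r → K} (hξ : Function.Injective ξ) (hm : 2 ≤ m) (a : ℝ) (ha0 : 0 ≤ a)
    (ha : a ≤ r) :
    |(∑ v : Fin m ⊕ Fin r → K, (sv ξ v - a) ^ 2) / (Fintype.card (Fin m ⊕ Fin r → K) : ℝ) - Fintype.card K| ≤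
      r ^ 2 + r + 1 := by
  have hq : (1 : ℝ) ≤ Fintype.card K := by exact_mod_cast Fintype.card_pos
  have hq0 : (0 : ℝ) < Fintype.card K := by linarith
  have h1 : ∀ η : Fin r → K, ∑ u : Fin m → K, (sv ξ (Sum.elim u η) - a) ^ 2 =
      (Fintype.card K : ℝ) ^ m * ((Fintype.card K - r) * (1 - 1 / Fintype.card K) + (WW η - a) ^ 2) := by
    intro η
    have e : ∀ u : Fin m → K, (sv ξ (Sum.elim u η) - a) ^ 2 = (sv ξ (Sum.elim u η) - WW η) ^ 2 +
        (2 * (WW η - a) * sv ξ (Sum.elim u η) + ((WW η - a) ^ 2 - 2 * (WW η - a) * WW η)) := fun u => by ring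
    simp only [e]
    rw [Finset.sum_add_distrib, Finset.sum_add_distrib, inner_two h2 hξ hm, ← Finset.mul_sum, inner_one h2 hξ (by omega),
      Finset.sum_const, card_univ, Fintype.card_fun, Fintype.card_fin, nsmul_eq_mul]
    push_cast
    ring
  rw [sum_split, Finset.sum_congr rfl fun η _ => h1 η, ← Finset.mul_sum, card_split,
    mul_div_mul_left _ _ (by positivity), Finset.sum_add_distrib, Finset.sum_const, card_univ, Fintype.card_fun,
    Fintype.card_fin, nsmul_eq_mul]
  push_cast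
  rw [add_div, mul_div_cancel_left₀ _ (by positivity)]
  have h3 : 0 ≤ (∑ η : Fin r → K, (WW η - a) ^ 2) / (Fintype.card K : ℝ) ^ r := by positivity
  have h4 : (∑ η : Fin r → K, (WW η - a) ^ 2) / (Fintype.card K : ℝ) ^ r ≤ r ^ 2 := by
    rw [div_le_iff₀ (by positivity)]
    calc ∑ η : Fin r → K, (WW η - a) ^ 2 ≤ ∑ _η : Fin r → K, (r : ℝ) ^ 2 := by
          refine Finset.sum_le_sum fun η _ => ?_
          rw [← sq_abs]
          refine pow_le_pow_left₀ (abs_nonneg _) ?_ 2
          rw [abs_le]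
          have := WW_nonneg η
          have := WW_le η
          constructor <;> linarith
      _ = r ^ 2 * (Fintype.card K : ℝ) ^ r := by
          rw [Finset.sum_const, card_univ, Fintype.card_fun, Fintype.card_fin, nsmul_eq_mul]
          push_cast
          ring
  have h5 : ((Fintype.card K : ℝ) - r) * (1 - 1 / Fintype.card K) = Fintype.card K - (r + 1) + r / Fintype.card K := by
    field_simp
    ring
  have h6 : 0 ≤ (r : ℝ) / Fintype.card K := by positivity
  have h7 : (r : ℝ) / Fintype.card K ≤ r := div_le_self (by positivity) hq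
  have hr0 : (0 : ℝ) ≤ r := Nat.cast_nonneg r
  rw [h5, abs_le]
  constructor
  · nlinarith
  · nlinarith

end Mom

end Pool.Agent.U62.NG
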