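import Pool.Agent.U62.NG.Ind
import Pool.Agent.N647.NG.Loc

/-!
# Character sums over hyperelliptic equations with marked points: the first two moments

`Fv ξ v x` is the polynomial `∏ (x - ξ_i) (x^m + ∑ v_k x^k) + ∑ D_i L_i(x) v_i^2`, whose values at the marked points `ξ_i` are the
squares `(D_i v_i)^2`.
-/

set_option autoImplicit false
set_option linter.unusedSectionVars false

namespace Pool.Agent.U62.NG

open Finset Polynomial Pool.Agent.N647.NG

section Def

variable {R : Type} [CommRing R] {m r : ℕ}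

/-- `∏ (x - ξ_i)`. -/
def Px (ξ : Fin r → R) (x : R) : R := ∏ i, (x - ξ i)

/-- `∏_{j ≠ i} (x - ξ_j)`. -/
def Lx (ξ : Fin r → R) (i : Fin r) (x : R) : R := ∏ j ∈ univ.erase i, (x - ξ j)

/-- The right hand side of the equation. -/
def Fv (ξ : Fin r → R) (v : Fin m ⊕ Fin r → R) (x : R) : R :=
  Px ξ x * (x ^ m + ∑ k : Fin m, v (Sum.inl k) * x ^ (k : ℕ)) +
    ∑ i, Lx ξ i (ξ i) * Lx ξ i x * v (Sum.inr i) ^ 2

theorem Lx_other (ξ : Fin r → R) {i j : Fin r} (h : i ≠ j) : Lx ξ i (ξ j) = 0 := by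
  unfold Lx
  exact Finset.prod_eq_zero (Finset.mem_erase.2 ⟨h.symm, mem_univ j⟩) (sub_self _)

theorem Px_mark (ξ : Fin r → R) (i : Fin r) : Px ξ (ξ i) = 0 := by
  unfold Px
  exact Finset.prod_eq_zero (mem_univ i) (sub_self _)

theorem Fv_mark (ξ : Fin r → R) (v : Fin m ⊕ Fin r → R) (i : Fin r) :
    Fv ξ v (ξ i) = (Lx ξ i (ξ i) * v (Sum.inr i)) ^ 2 := by
  unfold Fv
  rw [Px_mark, zero_mul, zero_add, Finset.sum_eq_single i]
  · ring
  · intro j _ hj
    rw [Lx_other ξ hj]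
    ring
  · intro h
    exact absurd (mem_univ i) h

theorem Fv_map {S : Type} [CommRing S] (φ : R →+* S) (ξ : Fin r → R) (v : Fin m ⊕ Fin r → R) (x : R) :
    φ (Fv ξ v x) = Fv (fun i => φ (ξ i)) (fun k => φ (v k)) (φ x) := by
  unfold Fv Px Lx
  simp only [map_add, map_mul, map_prod, map_sum, map_sub, map_pow]

end Def

section Loc

variable {K : Type} [Field K] [Fintype K] [DecidableEq K] {m r : ℕ}

theorem Lx_self {ξ : Fin r → K} (hξ : Function.Injective ξ) (i : Fin r) : Lx ξ i (ξ i) ≠ 0 := by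
  unfold Lx
  rw [Finset.prod_ne_zero_iff]
  intro j hj
  rw [sub_ne_zero]
  intro h
  exact (Finset.mem_erase.1 hj).1 (hξ h).symm

theorem Px_zero {ξ : Fin r → K} {x : K} : Px ξ x = 0 ↔ ∃ i, x = ξ i := by
  unfold Px
  rw [Finset.prod_eq_zero_iff]
  constructor
  · rintro ⟨i, -, h⟩
    exact ⟨i, sub_eq_zero.1 h⟩
  · rintro ⟨i, h⟩
    exact ⟨i, mem_univ i, sub_eq_zero.2 h⟩

/-- The constant part of the system. -/
def fc (m : ℕ) (ξ η : Fin r → K) (x : K) : K := Px ξ x * x ^ m + ∑ i, Lx ξ i (ξ i) * Lx ξ i x * η i ^ 2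

/-- The linear part of the system. -/
def hc (ξ : Fin r → K) (k : Fin m) (x : K) : K := Px ξ x * x ^ (k : ℕ)

theorem Fv_eq (ξ : Fin r → K) (u : Fin m → K) (η : Fin r → K) (x : K) :
    Fv ξ (Sum.elim u η) x = vl (fc m ξ η) (hc ξ) u x := by
  unfold Fv vl fc hc
  simp only [Sum.elim_inl, Sum.elim_inr]
  rw [mul_add, Finset.mul_sum]
  have e : ∀ k : Fin m, Px ξ x * (u k * x ^ (k : ℕ)) = u k * (Px ξ x * x ^ (k : ℕ)) := fun k => by ring
  simp only [e]
  ring

theorem hc_zero (ξ : Fin r → K) (hm : 1 ≤ m) (x : K) : (∀ k : Fin m, hc ξ k x = 0) ↔ Px ξ x = 0 := by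
  constructor
  · intro h
    have := h ⟨0, hm⟩
    unfold hc at this
    simpa using this
  · intro h k
    unfold hc
    rw [h, zero_mul]

theorem hc_sep (ξ : Fin r → K) (hm : 2 ≤ m) : Sep (hc (m := m) ξ) := by
  intro P Q hPQ hP hl
  obtain ⟨l, hl⟩ := hl
  obtain ⟨i, hi⟩ := hP
  have hPP : Px ξ P ≠ 0 := by
    intro h
    apply hi
    unfold hc
    rw [h, zero_mul]
  have h0 := hl ⟨0, by omega⟩
  have h1 := hl ⟨1, by omega⟩
  unfold hc at h0 h1
  simp only [pow_zero, mul_one, pow_one] at h0 h1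
  apply hPQ
  have h2 : Px ξ P * P = Px ξ P * Q := by rw [h1, h0]; ring
  exact mul_left_cancel₀ hPP h2

/-- The number of the nonzero coordinates. -/
noncomputable def WW (η : Fin r → K) : ℝ := ∑ i, if η i = 0 then 0 else 1

theorem ch_sq_ne {a : K} (ha : a ≠ 0) : ch (a ^ 2) = 1 := by
  unfold ch
  rw [quadraticChar_sq_one' ha]
  norm_num

theorem ch_zero' : ch (0 : K) = 0 := by
  unfold ch
  simp

theorem bs_eq {ξ : Fin r → K} (hξ : Function.Injective ξ) (hm : 1 ≤ m) (η : Fin r → K) :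
    bs (fc m ξ η) (hc (m := m) ξ) = WW η := by
  unfold bs WW
  have h1 : (univ.filter fun P : K => ∀ i : Fin m, hc ξ i P = 0) = univ.image ξ := by
    ext x
    rw [mem_filter, mem_image, hc_zero ξ hm, Px_zero]
    constructor
    · rintro ⟨-, i, h⟩
      exact ⟨i, mem_univ i, h.symm⟩
    · rintro ⟨i, -, h⟩
      exact ⟨mem_univ x, i, h.symm⟩
  rw [h1, Finset.sum_image (fun a _ b _ h => hξ h)]
  refine Finset.sum_congr rfl fun i _ => ?_
  have h2 : fc m ξ η (ξ i) = (Lx ξ i (ξ i) * η i) ^ 2 := by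
    have h3 := Fv_mark ξ (Sum.elim (0 : Fin m → K) η) i
    rw [Sum.elim_inr] at h3
    rw [← h3, Fv_eq]
    unfold vl
    simp
  rw [h2]
  split_ifs with h
  · rw [h, mul_zero, zero_pow (by norm_num), ch_zero']
  · exact ch_sq_ne (mul_ne_zero (Lx_self hξ i) h)

theorem sum_shift' {n : ℕ} (F : (Fin n → K) → ℝ) (c : Fin n → K) (t : ℝ)
    (hF : ∀ u : Fin n → K, ∑ s : K, F (fun i => u i + s * c i) = Fintype.card K * t) :
    ∑ u, F u = (Fintype.card K : ℝ) ^ n * t := by
  have h := sum_shift (fun u => F u - t) c (fun u => by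
    rw [Finset.sum_sub_distrib, hF, Finset.sum_const, card_univ, nsmul_eq_mul, sub_self])
  rw [Finset.sum_sub_distrib, Finset.sum_const, card_univ, Fintype.card_fun, Fintype.card_fin, nsmul_eq_mul] at h
  push_cast at h
  linarith

theorem sum_ch_sq (a b : K) (hb : b ≠ 0) : ∑ s : K, ch (a + s * b) ^ 2 = (Fintype.card K : ℝ) - 1 := by
  have h1 : ∑ s : K, ch (a + s * b) ^ 2 = ∑ z : K, ch z ^ 2 :=
    Fintype.sum_bijective (fun s : K => a + s * b)
      ⟨fun x y hxy => mul_right_cancel₀ hb (add_left_cancel hxy), fun y => ⟨(y - a) / b, by field_simp; ring⟩⟩ _ _ fun _ => rfl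
  rw [h1]
  have h2 : ∀ z : K, ch z ^ 2 = 1 - if z = 0 then 1 else 0 := by
    intro z
    by_cases hz : z = 0
    · rw [if_pos hz, hz, ch_zero']; norm_num
    · rw [if_neg hz]
      unfold ch
      rcases quadraticChar_dichotomy hz with h | h <;> rw [h] <;> norm_num
  simp only [h2]
  rw [Finset.sum_sub_distrib, Finset.sum_const, card_univ, nsmul_eq_mul, Finset.sum_ite_eq']
  simp

/-- The character sum. -/
noncomputable def sv (ξ : Fin r → K) (v : Fin m ⊕ Fin r → K) : ℝ := ∑ x : K, ch (Fv ξ v x)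

theorem inner_one {ξ : Fin r → K} (h2 : ringChar K ≠ 2) (hξ : Function.Injective ξ) (hm : 1 ≤ m) (η : Fin r → K) :
    ∑ u : Fin m → K, sv ξ (Sum.elim u η) = (Fintype.card K : ℝ) ^ m * WW η := by
  unfold sv
  simp only [Fv_eq]
  rw [first _ _ h2, bs_eq hξ hm]

theorem inner_two {ξ : Fin r → K} (h2 : ringChar K ≠ 2) (hξ : Function.Injective ξ) (hm : 2 ≤ m) (η : Fin r → K) :
    ∑ u : Fin m → K, (sv ξ (Sum.elim u η) - WW η) ^ 2 =
      (Fintype.card K : ℝ) ^ m * ((Fintype.card K - r) * (1 - 1 / Fintype.card K)) := by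
  have hq : (0 : ℝ) < Fintype.card K := by exact_mod_cast Fintype.card_pos
  obtain ⟨S, hS⟩ : ∃ S : Finset K, S = univ.filter (fun P => ¬ ∀ i : Fin m, hc ξ i P = 0) := ⟨_, rfl⟩
  have h1 : ∀ u : Fin m → K, (sv ξ (Sum.elim u η) - WW η) ^ 2 =
      ∑ P ∈ S, ∑ Q ∈ S, ch (vl (fc m ξ η) (hc ξ) u P) * ch (vl (fc m ξ η) (hc ξ) u Q) := by
    intro u
    unfold sv
    simp only [Fv_eq]
    rw [sum_eq_bs, bs_eq hξ (by omega), add_sub_cancel_left, sq, sum_mul_sum, hS]
  simp only [h1]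
  rw [sum_comm]
  have h3 : ∀ P ∈ S, ∑ u : Fin m → K, ∑ Q ∈ S, ch (vl (fc m ξ η) (hc ξ) u P) * ch (vl (fc m ξ η) (hc ξ) u Q) =
      (Fintype.card K : ℝ) ^ m * (1 - 1 / Fintype.card K) := by
    intro P hP
    have hP' : ∃ i, hc (m := m) ξ i P ≠ 0 := by
      rw [hS, mem_filter] at hP
      have := hP.2
      push Not at this
      exact this
    rw [sum_comm, Finset.sum_eq_single_of_mem P hP]
    · obtain ⟨i, hi⟩ := hP'
      have e : ∀ u : Fin m → K, ch (vl (fc m ξ η) (hc ξ) u P) * ch (vl (fc m ξ η) (hc ξ) u P) =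
          ch (vl (fc m ξ η) (hc ξ) u P) ^ 2 := fun u => by ring
      simp only [e]
      refine sum_shift' _ (fun k => if k = i then 1 else 0) _ fun u => ?_
      have h4 : ∑ k, (if k = i then (1 : K) else 0) * hc ξ k P = hc ξ i P := by
        simp only [ite_mul, one_mul, zero_mul, sum_ite_eq', mem_univ, if_true]
      simp only [vl_add, h4]
      rw [sum_ch_sq _ _ hi]
      field_simp
    · intro Q hQ hQP
      have := sum_two (fc m ξ η) (hc ξ) h2 (hc_sep ξ hm) P Q (Ne.symm hQP) hP'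
      exact this
  rw [Finset.sum_congr rfl h3, Finset.sum_const, nsmul_eq_mul]
  have hcard : (S.card : ℝ) = Fintype.card K - r := by
    have h4 : S = univ \ univ.image ξ := by
      rw [hS]
      ext x
      rw [mem_filter, mem_sdiff, mem_image, hc_zero ξ (by omega), Px_zero]
      constructor
      · rintro ⟨-, h⟩
        exact ⟨mem_univ x, fun ⟨i, _, hi⟩ => h ⟨i, hi.symm⟩⟩
      · rintro ⟨-, h⟩
        exact ⟨mem_univ x, fun ⟨i, hi⟩ => h ⟨i, mem_univ i, hi.symm⟩⟩
    rw [h4, Finset.card_sdiff_of_subset (Finset.subset_univ _), Finset.card_image_of_injective _ hξ, card_univ, card_univ,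
      Fintype.card_fin, Nat.cast_sub]
    have := Fintype.card_le_of_injective ξ hξ
    rwa [Fintype.card_fin] at this
  rw [hcard]
  ring

theorem WW_nonneg (η : Fin r → K) : 0 ≤ WW η := by
  unfold WW
  exact Finset.sum_nonneg fun i _ => by split_ifs <;> norm_num

theorem WW_le (η : Fin r → K) : WW η ≤ r := by
  unfold WW
  calc ∑ i, (if η i = 0 then (0 : ℝ) else 1) ≤ ∑ _i : Fin r, (1 : ℝ) :=
        Finset.sum_le_sum fun i _ => by split_ifs <;> norm_num
    _ = r := by simp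

/-- Evaluation at an index. -/
def evi (i : Fin r) : (Fin r → K) →+ K where
  toFun η := η i
  map_zero' := rfl
  map_add' _ _ := rfl

theorem sum_WW : (∑ η : Fin r → K, WW η) / (Fintype.card K : ℝ) ^ r = r * (1 - 1 / Fintype.card K) := by
  have hq : (0 : ℝ) < Fintype.card K := by exact_mod_cast Fintype.card_pos
  unfold WW
  rw [sum_comm, sum_div]
  have h : ∀ i : Fin r, (∑ η : Fin r → K, if η i = 0 then (0 : ℝ) else 1) / (Fintype.card K : ℝ) ^ r =
      1 - 1 / Fintype.card K := by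
    intro i
    have h1 := Pool.Agent.Y57.FD.Mom.mean_hom (evi (K := K) i) (fun z => ⟨fun _ => z, rfl⟩)
      (fun z => if z = 0 then (0 : ℝ) else 1)
    have h2 : (Fintype.card (Fin r → K) : ℝ) = (Fintype.card K : ℝ) ^ r := by
      rw [Fintype.card_fun, Fintype.card_fin]
      push_cast
      rfl
    rw [h2] at h1
    have h3 : (∑ η : Fin r → K, if η i = 0 then (0 : ℝ) else 1) =
        ∑ η : Fin r → K, (fun z : K => if z = 0 then (0 : ℝ) else 1) (evi i η) := rfl
    rw [h3, h1]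
    have h4 : ∀ z : K, (if z = 0 then (0 : ℝ) else 1) = 1 - if z = 0 then 1 else 0 := fun z => by split_ifs <;> norm_num
    simp only [h4]
    rw [Finset.sum_sub_distrib, Finset.sum_const, card_univ, nsmul_eq_mul, Finset.sum_ite_eq']
    simp only [mem_univ, if_true, mul_one]
    field_simp
  rw [Finset.sum_congr rfl fun i _ => h i, Finset.sum_const, card_univ, Fintype.card_fin, nsmul_eq_mul]

end Loc

end Pool.Agent.U62.NG
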